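import Mathlib

/-!
# The inequality per(A ∘ A) ≤ (per A)² for real positive semidefinite matrices of order four

Write `A = [[α, aᵀ], [a, A']]` with `A'` of order three. Then `per A = α N + S` with `N = per A'`
and `S = ∑ a_j a_k per A'(j|k)`, and `per (A ∘ A) = α² per (A' ∘ A') + T`. With unit diagonal the
bound `T ≤ 2 (∑ a_j²)²` is clear, `(∑ a_j²)² ≤ α aᵀ A' a` is positive semidefiniteness of `A`, and
`aᵀ A' a ≤ S`, `1 ≤ N` because `[per A'(j|k)] = A' + v vᵀ`. Hence `T ≤ 2 α N S`.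
-/

set_option autoImplicit false

namespace Pool.Agent.H72.Chollet

open Matrix

theorem perSucc {n : ℕ} (M : Matrix (Fin (n+1)) (Fin (n+1)) ℝ) :
    M.permanent = ∑ p : Fin (n+1), M p 0 *
      (Matrix.of fun i j : Fin n => M (Equiv.swap 0 p i.succ) j.succ).permanent := by
  unfold Matrix.permanent
  rw [Finset.univ_perm_fin_succ, ← Finset.univ_product_univ, Finset.sum_map, Finset.sum_product]
  refine Finset.sum_congr rfl fun p _ => ?_
  rw [Finset.mul_sum]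
  refine Finset.sum_congr rfl fun e _ => ?_
  rw [Fin.prod_univ_succ]
  simp [Equiv.Perm.decomposeFin_symm_apply_succ, Equiv.Perm.decomposeFin_symm_apply_zero]

theorem per1 (M : Matrix (Fin 1) (Fin 1) ℝ) : M.permanent = M 0 0 := by
  simp

theorem per2 (M : Matrix (Fin 2) (Fin 2) ℝ) :
    M.permanent = M 0 0 * M 1 1 + M 1 0 * M 0 1 := by
  rw [perSucc]
  simp [Fin.sum_univ_succ]

theorem per3 (M : Matrix (Fin 3) (Fin 3) ℝ) :
    M.permanent = M 0 0 * (M 1 1 * M 2 2 + M 2 1 * M 1 2)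
      + M 1 0 * (M 0 1 * M 2 2 + M 2 1 * M 0 2)
      + M 2 0 * (M 1 1 * M 0 2 + M 0 1 * M 1 2) := by
  have e1 : Equiv.swap (0 : Fin 3) 1 2 = 2 := by decide
  have e2 : Equiv.swap (0 : Fin 3) 2 1 = 1 := by decide
  rw [perSucc]
  simp only [Fin.sum_univ_succ, per2]
  simp [e1, e2]
  try ring



theorem pow4_le {x u v : ℝ} (h : x ^ 2 ≤ u * v) : x ^ 4 ≤ u ^ 2 * v ^ 2 := by
  have := pow_le_pow_left₀ (sq_nonneg x) h 2
  calc x ^ 4 = (x ^ 2) ^ 2 := by ring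
    _ ≤ (u * v) ^ 2 := this
    _ = u ^ 2 * v ^ 2 := by ring

theorem cross_le {p q r x y z : ℝ} (hq : 0 ≤ q) (hr : 0 ≤ r)
    (hx : x ^ 2 ≤ q * r) (hy : y ^ 2 ≤ p * r) (hz : z ^ 2 ≤ p * q) :
    r ^ 2 * z ^ 2 + x ^ 2 * y ^ 2 ≤ 2 * (p * q * r ^ 2) := by
  have h1 := mul_le_mul_of_nonneg_left hz (sq_nonneg r)
  have h2 := mul_le_mul hx hy (sq_nonneg y) (mul_nonneg hq hr)
  have e1 : r ^ 2 * (p * q) = p * q * r ^ 2 := by ring
  have e2 : q * r * (p * r) = p * q * r ^ 2 := by ring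
  rw [e1] at h1
  rw [e2] at h2
  linarith

/-- The three by three case in terms of the entries: `p,q,r` diagonal, `x,y,z` off-diagonal. -/
theorem core3 (p q r x y z : ℝ) (hp : 0 ≤ p) (hq : 0 ≤ q) (hr : 0 ≤ r)
    (hx : x ^ 2 ≤ q * r) (hy : y ^ 2 ≤ p * r) (hz : z ^ 2 ≤ p * q)
    (hE : 0 ≤ p * x ^ 2 + q * y ^ 2 + r * z ^ 2 + 6 * (x * y * z)) :
    p ^ 2 * q ^ 2 * r ^ 2 + p ^ 2 * x ^ 4 + q ^ 2 * y ^ 4 + r ^ 2 * z ^ 4
        + 2 * (x * y * z) ^ 2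
      ≤ (p * q * r + p * x ^ 2 + q * y ^ 2 + r * z ^ 2 + 2 * (x * y * z)) ^ 2 := by
  set D := p * q * r with hD
  set X := p * x ^ 2 with hX
  set Y := q * y ^ 2 with hY
  set Z := r * z ^ 2 with hZ
  set w := x * y * z with hw
  have hD0 : 0 ≤ D := by positivity
  have hX0 : 0 ≤ X := by positivity
  have hY0 : 0 ≤ Y := by positivity
  have hZ0 : 0 ≤ Z := by positivity
  have hXD : X ≤ D := by
    have := mul_le_mul_of_nonneg_left hx hp
    linarith [this, hD, hX]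
  have hYD : Y ≤ D := by
    have := mul_le_mul_of_nonneg_left hy hq
    linarith [this, hD, hY]
  have hZD : Z ≤ D := by
    have := mul_le_mul_of_nonneg_left hz hr
    linarith [this, hD, hZ]
  have e1 : p ^ 2 * q ^ 2 * r ^ 2 = D ^ 2 := by rw [hD]; ring
  have e2 : p ^ 2 * x ^ 4 = X ^ 2 := by rw [hX]; ring
  have e3 : q ^ 2 * y ^ 4 = Y ^ 2 := by rw [hY]; ring
  have e4 : r ^ 2 * z ^ 4 = Z ^ 2 := by rw [hZ]; ring
  rw [e1, e2, e3, e4]
  have key : (D + X + Y + Z + 2 * w) ^ 2 - (D ^ 2 + X ^ 2 + Y ^ 2 + Z ^ 2 + 2 * w ^ 2)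
      = 2 * (X * Y + X * Z + Y * Z) + 2 * w ^ 2 + 2 * D * (X + Y + Z) + 4 * D * w
        + 4 * (X + Y + Z) * w := by ring
  have h1 : 0 ≤ 2 * (X * Y + X * Z + Y * Z) + 2 * w ^ 2 + 2 * D * (X + Y + Z) + 4 * D * w
        + 4 * (X + Y + Z) * w := by
    have hXX : X * X ≤ X * D := mul_le_mul_of_nonneg_left hXD hX0
    have hYY : Y * Y ≤ Y * D := mul_le_mul_of_nonneg_left hYD hY0
    have hZZ : Z * Z ≤ Z * D := mul_le_mul_of_nonneg_left hZD hZ0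
    have a1 : 0 ≤ D * (X + Y + Z + 6 * w) := mul_nonneg hD0 hE
    have a2 : 0 ≤ (X + Y + Z) * (X + Y + Z + 6 * w) := mul_nonneg (by positivity) hE
    have b1 : 0 ≤ X * Y := mul_nonneg hX0 hY0
    have b2 : 0 ≤ X * Z := mul_nonneg hX0 hZ0
    have b3 : 0 ≤ Y * Z := mul_nonneg hY0 hZ0
    have b4 : 0 ≤ D * X := mul_nonneg hD0 hX0
    have b5 : 0 ≤ D * Y := mul_nonneg hD0 hY0
    have b6 : 0 ≤ D * Z := mul_nonneg hD0 hZ0
    nlinarith [sq_nonneg w]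
  nlinarith [h1, key]

theorem core4 (α a b c p q r x y z : ℝ) (hα : 0 ≤ α) (hp : 0 ≤ p) (hq : 0 ≤ q) (hr : 0 ≤ r)
    (hx : x ^ 2 ≤ q * r) (hy : y ^ 2 ≤ p * r) (hz : z ^ 2 ≤ p * q)
    (hQ : ∀ s u v t : ℝ, 0 ≤ α * s ^ 2 + p * u ^ 2 + q * v ^ 2 + r * t ^ 2
      + 2 * (a * s * u + b * s * v + c * s * t + z * u * v + y * u * t + x * v * t)) :
    α ^ 2 * (p ^ 2 * q ^ 2 * r ^ 2 + p ^ 2 * x ^ 4 + q ^ 2 * y ^ 4 + r ^ 2 * z ^ 4
        + 2 * (x * y * z) ^ 2)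
      + (a ^ 4 * (q ^ 2 * r ^ 2 + x ^ 4) + b ^ 4 * (p ^ 2 * r ^ 2 + y ^ 4)
        + c ^ 4 * (p ^ 2 * q ^ 2 + z ^ 4)
        + 2 * a ^ 2 * b ^ 2 * (r ^ 2 * z ^ 2 + x ^ 2 * y ^ 2)
        + 2 * a ^ 2 * c ^ 2 * (q ^ 2 * y ^ 2 + x ^ 2 * z ^ 2)
        + 2 * b ^ 2 * c ^ 2 * (p ^ 2 * x ^ 2 + y ^ 2 * z ^ 2))
      ≤ (α * (p * q * r + p * x ^ 2 + q * y ^ 2 + r * z ^ 2 + 2 * (x * y * z))
        + (a ^ 2 * (q * r + x ^ 2) + b ^ 2 * (p * r + y ^ 2) + c ^ 2 * (p * q + z ^ 2)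
          + 2 * a * b * (r * z + x * y) + 2 * a * c * (q * y + x * z)
          + 2 * b * c * (p * x + y * z))) ^ 2 := by
  have hE : 0 ≤ p * x ^ 2 + q * y ^ 2 + r * z ^ 2 + 6 * (x * y * z) := by
    have := hQ 0 x y z
    nlinarith [this]
  have h3 := core3 p q r x y z hp hq hr hx hy hz hE
  have hEE : 0 ≤ p * x ^ 2 + q * y ^ 2 + r * z ^ 2 := by positivity
  set N := p * q * r + p * x ^ 2 + q * y ^ 2 + r * z ^ 2 + 2 * (x * y * z) with hN
  set D := p * q * r with hD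
  have hD0 : 0 ≤ D := by positivity
  have hDN : D ≤ N := by rw [hN]; linarith
  have hN0 : 0 ≤ N := le_trans hD0 hDN
  set U := a ^ 2 * (q * r) + b ^ 2 * (p * r) + c ^ 2 * (p * q) with hU
  set V := a ^ 2 * (q * r) + b ^ 2 * (p * r) + c ^ 2 * (p * q) + 2 * a * b * (r * z)
      + 2 * a * c * (q * y) + 2 * b * c * (p * x) with hV
  set S := a ^ 2 * (q * r + x ^ 2) + b ^ 2 * (p * r + y ^ 2) + c ^ 2 * (p * q + z ^ 2)
          + 2 * a * b * (r * z + x * y) + 2 * a * c * (q * y + x * z)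
          + 2 * b * c * (p * x + y * z) with hS
  have hSV : S = V + (a * x + b * y + c * z) ^ 2 := by rw [hS, hV]; ring
  have hVS : V ≤ S := by rw [hSV]; nlinarith [sq_nonneg (a * x + b * y + c * z)]
  -- the quadratic form on the vector (s, -a q r, ...)
  have hquad : ∀ s : ℝ, 0 ≤ α * (s * s) + (2 * U) * s + D * V := by
    intro s
    have := hQ s (a * (q * r)) (b * (p * r)) (c * (p * q))
    have e : α * s ^ 2 + p * (a * (q * r)) ^ 2 + q * (b * (p * r)) ^ 2 + r * (c * (p * q)) ^ 2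
      + 2 * (a * s * (a * (q * r)) + b * s * (b * (p * r)) + c * s * (c * (p * q))
        + z * (a * (q * r)) * (b * (p * r)) + y * (a * (q * r)) * (c * (p * q))
        + x * (b * (p * r)) * (c * (p * q)))
      = α * (s * s) + (2 * U) * s + D * V := by rw [hU, hV, hD]; ring
    rw [e] at this
    exact this
  have hdisc := discrim_le_zero hquad
  have hUV : U ^ 2 ≤ α * (D * V) := by
    unfold discrim at hdisc
    nlinarith [hdisc]
  have hDV : 0 ≤ D * V := by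
    have := hquad 0
    linarith
  have hV0 : 0 ≤ V := by
    rcases eq_or_lt_of_le hp with h | hp'
    · have hz0 : z = 0 := by
        have : z ^ 2 ≤ 0 := by rw [← h] at hz; linarith
        exact pow_eq_zero_iff (two_ne_zero) |>.1 (le_antisymm this (sq_nonneg z))
      have hy0 : y = 0 := by
        have : y ^ 2 ≤ 0 := by rw [← h] at hy; linarith
        exact pow_eq_zero_iff (two_ne_zero) |>.1 (le_antisymm this (sq_nonneg y))
      rw [hV, ← h, hz0, hy0]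
      have : 0 ≤ a ^ 2 * (q * r) := by positivity
      linarith
    rcases eq_or_lt_of_le hq with h | hq'
    · have hz0 : z = 0 := by
        have : z ^ 2 ≤ 0 := by rw [← h] at hz; linarith
        exact pow_eq_zero_iff (two_ne_zero) |>.1 (le_antisymm this (sq_nonneg z))
      have hx0 : x = 0 := by
        have : x ^ 2 ≤ 0 := by rw [← h] at hx; linarith
        exact pow_eq_zero_iff (two_ne_zero) |>.1 (le_antisymm this (sq_nonneg x))
      rw [hV, ← h, hz0, hx0]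
      have : 0 ≤ b ^ 2 * (p * r) := by positivity
      linarith
    rcases eq_or_lt_of_le hr with h | hr'
    · have hy0 : y = 0 := by
        have : y ^ 2 ≤ 0 := by rw [← h] at hy; linarith
        exact pow_eq_zero_iff (two_ne_zero) |>.1 (le_antisymm this (sq_nonneg y))
      have hx0 : x = 0 := by
        have : x ^ 2 ≤ 0 := by rw [← h] at hx; linarith
        exact pow_eq_zero_iff (two_ne_zero) |>.1 (le_antisymm this (sq_nonneg x))
      rw [hV, ← h, hy0, hx0]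
      have : 0 ≤ c ^ 2 * (p * q) := by positivity
      linarith
    have hDpos : 0 < D := by positivity
    exact nonneg_of_mul_nonneg_right hDV hDpos
  have hS0 : 0 ≤ S := le_trans hV0 hVS
  -- T ≤ 2 U^2
  have t1 : x ^ 4 ≤ q ^ 2 * r ^ 2 := pow4_le hx
  have t2 : y ^ 4 ≤ p ^ 2 * r ^ 2 := pow4_le hy
  have t3 : z ^ 4 ≤ p ^ 2 * q ^ 2 := pow4_le hz
  have t4 : r ^ 2 * z ^ 2 + x ^ 2 * y ^ 2 ≤ 2 * (p * q * r ^ 2) := cross_le hq hr hx hy hz
  have t5 : q ^ 2 * y ^ 2 + x ^ 2 * z ^ 2 ≤ 2 * (p * r * q ^ 2) :=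
    cross_le hr hq (by rw [mul_comm r q]; exact hx) hz hy
  have t6 : p ^ 2 * x ^ 2 + y ^ 2 * z ^ 2 ≤ 2 * (q * r * p ^ 2) :=
    cross_le hr hp (by rw [mul_comm r p]; exact hy) (by rw [mul_comm q p]; exact hz) hx
  have hT : a ^ 4 * (q ^ 2 * r ^ 2 + x ^ 4) + b ^ 4 * (p ^ 2 * r ^ 2 + y ^ 4)
        + c ^ 4 * (p ^ 2 * q ^ 2 + z ^ 4)
        + 2 * a ^ 2 * b ^ 2 * (r ^ 2 * z ^ 2 + x ^ 2 * y ^ 2)
        + 2 * a ^ 2 * c ^ 2 * (q ^ 2 * y ^ 2 + x ^ 2 * z ^ 2)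
        + 2 * b ^ 2 * c ^ 2 * (p ^ 2 * x ^ 2 + y ^ 2 * z ^ 2) ≤ 2 * U ^ 2 := by
    have s1 := mul_le_mul_of_nonneg_left t1 (by positivity : (0:ℝ) ≤ a ^ 4)
    have s2 := mul_le_mul_of_nonneg_left t2 (by positivity : (0:ℝ) ≤ b ^ 4)
    have s3 := mul_le_mul_of_nonneg_left t3 (by positivity : (0:ℝ) ≤ c ^ 4)
    have s4 := mul_le_mul_of_nonneg_left t4 (by positivity : (0:ℝ) ≤ 2 * a ^ 2 * b ^ 2)
    have s5 := mul_le_mul_of_nonneg_left t5 (by positivity : (0:ℝ) ≤ 2 * a ^ 2 * c ^ 2)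
    have s6 := mul_le_mul_of_nonneg_left t6 (by positivity : (0:ℝ) ≤ 2 * b ^ 2 * c ^ 2)
    have e : 2 * U ^ 2 = 2 * a ^ 4 * (q ^ 2 * r ^ 2) + 2 * b ^ 4 * (p ^ 2 * r ^ 2)
      + 2 * c ^ 4 * (p ^ 2 * q ^ 2) + 2 * a ^ 2 * b ^ 2 * (2 * (p * q * r ^ 2))
      + 2 * a ^ 2 * c ^ 2 * (2 * (p * r * q ^ 2)) + 2 * b ^ 2 * c ^ 2 * (2 * (q * r * p ^ 2)) := by
      rw [hU]; ring
    rw [e]
    linarith [s1, s2, s3, s4, s5, s6]
  have hfin : α * (D * V) ≤ α * (N * S) := by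
    apply mul_le_mul_of_nonneg_left _ hα
    exact mul_le_mul hDN hVS hV0 hN0
  have hα3 := mul_le_mul_of_nonneg_left h3 (sq_nonneg α)
  have hS2 : 0 ≤ S ^ 2 := sq_nonneg S
  have e : (α * N + S) ^ 2 = α ^ 2 * N ^ 2 + 2 * (α * (N * S)) + S ^ 2 := by ring
  rw [e]
  linarith [hα3, hT, hUV, hfin, hS2]


theorem per4 (M : Matrix (Fin 4) (Fin 4) ℝ) :
    M.permanent = M 0 0 * (M 1 1 * (M 2 2 * M 3 3 + M 3 2 * M 2 3)
        + M 2 1 * (M 1 2 * M 3 3 + M 3 2 * M 1 3) + M 3 1 * (M 2 2 * M 1 3 + M 1 2 * M 2 3))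
      + M 1 0 * (M 0 1 * (M 2 2 * M 3 3 + M 3 2 * M 2 3)
        + M 2 1 * (M 0 2 * M 3 3 + M 3 2 * M 0 3) + M 3 1 * (M 2 2 * M 0 3 + M 0 2 * M 2 3))
      + M 2 0 * (M 1 1 * (M 0 2 * M 3 3 + M 3 2 * M 0 3)
        + M 0 1 * (M 1 2 * M 3 3 + M 3 2 * M 1 3) + M 3 1 * (M 0 2 * M 1 3 + M 1 2 * M 0 3))
      + M 3 0 * (M 1 1 * (M 2 2 * M 0 3 + M 0 2 * M 2 3)
        + M 2 1 * (M 1 2 * M 0 3 + M 0 2 * M 1 3) + M 0 1 * (M 2 2 * M 1 3 + M 1 2 * M 2 3)) := by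
  have e1 : Equiv.swap (0 : Fin 4) 1 2 = 2 := by decide
  have e2 : Equiv.swap (0 : Fin 4) 1 3 = 3 := by decide
  have e3 : Equiv.swap (0 : Fin 4) 2 1 = 1 := by decide
  have e4 : Equiv.swap (0 : Fin 4) 2 3 = 3 := by decide
  have e5 : Equiv.swap (0 : Fin 4) 3 1 = 1 := by decide
  have e6 : Equiv.swap (0 : Fin 4) 3 2 = 2 := by decide
  rw [perSucc]
  simp only [Fin.sum_univ_succ, per3]
  simp [e1, e2, e3, e4, e5, e6]
  ring

theorem main4 (A : Matrix (Fin 4) (Fin 4) ℝ) (hA : A.PosSemidef) :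
    (Matrix.of fun i j => A i j ^ 2).permanent ≤ A.permanent ^ 2 := by
  have hs : ∀ i j, A i j = A j i := fun i j => by
    have := congrFun (congrFun hA.1 i) j
    simpa [Matrix.conjTranspose_apply] using this.symm
  have hQ : ∀ s u v t : ℝ, 0 ≤ A 0 0 * s ^ 2 + A 1 1 * u ^ 2 + A 2 2 * v ^ 2 + A 3 3 * t ^ 2
      + 2 * (A 1 0 * s * u + A 2 0 * s * v + A 3 0 * s * t + A 2 1 * u * v + A 3 1 * u * t
        + A 3 2 * v * t) := by
    intro s u v t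
    have := hA.dotProduct_mulVec_nonneg ![s, u, v, t]
    simp [Matrix.mulVec, dotProduct, Fin.sum_univ_succ] at this
    rw [hs 0 1, hs 0 2, hs 0 3, hs 1 2, hs 1 3, hs 2 3] at this
    linarith [this]
  have hdiag : ∀ i, 0 ≤ A i i := fun i => hA.diag_nonneg
  have hx : A 3 2 ^ 2 ≤ A 2 2 * A 3 3 := by
    have h : ∀ s : ℝ, 0 ≤ A 2 2 * (s * s) + (2 * A 3 2) * s + A 3 3 := fun s => by
      have := hQ 0 0 s 1
      linarith
    have := discrim_le_zero h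
    unfold discrim at this
    linarith
  have hy : A 3 1 ^ 2 ≤ A 1 1 * A 3 3 := by
    have h : ∀ s : ℝ, 0 ≤ A 1 1 * (s * s) + (2 * A 3 1) * s + A 3 3 := fun s => by
      have := hQ 0 s 0 1
      linarith
    have := discrim_le_zero h
    unfold discrim at this
    linarith
  have hz : A 2 1 ^ 2 ≤ A 1 1 * A 2 2 := by
    have h : ∀ s : ℝ, 0 ≤ A 1 1 * (s * s) + (2 * A 2 1) * s + A 2 2 := fun s => by
      have := hQ 0 s 1 0
      linarith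
    have := discrim_le_zero h
    unfold discrim at this
    linarith
  have key := core4 (A 0 0) (A 1 0) (A 2 0) (A 3 0) (A 1 1) (A 2 2) (A 3 3) (A 3 2) (A 3 1)
    (A 2 1) (hdiag 0) (hdiag 1) (hdiag 2) (hdiag 3) hx hy hz hQ
  rw [per4, per4]
  simp only [Matrix.of_apply]
  rw [hs 0 1, hs 0 2, hs 0 3, hs 1 2, hs 1 3, hs 2 3]
  refine le_trans (le_of_eq ?_) (le_trans key (le_of_eq ?_))
  · ring
  · ring

end Pool.Agent.H72.Chollet
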